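import Mathlib

/-!
# The covering threshold of matroids can exceed `binom (t + k + 1) (k + 1)`

For `V = {(1,1,1,1,1,1,1,1)}` (so `t = 8`, `k = 1`) the covering threshold over all matroids is at
least `48 > 45 = binom 10 2`. The matroid lives on the `48` nonzero vectors of `F_7 ^ 2`: its long
lines are the `48` affine lines missing the origin, and the six points of every punctured line
through the origin are relaxed to a triangle with three midpoints.
-/

set_option autoImplicit false

namespace Pool.Agent.Results.MP_6a60a4_co.CoveringThreshold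

open Set
open scoped Matroid

/-- A dimension vector: a non-increasing finite sequence of natural numbers. -/
def IsDimVector (v : List ℕ) : Prop := v.Pairwise (fun a b => b ≤ a)

/-- `M` is covered by the dimension vector `v = (v_1, ..., v_t)`: there are flats `L_1, ..., L_t` of
`M` with `r(L_i) ≤ v_i + 1` whose union is the ground set of `M`. -/
def CoveredByVector {α : Type} (M : Matroid α) (v : List ℕ) : Prop :=
  ∃ L : Fin v.length → Set α,
    (∀ i, M.IsFlat (L i) ∧ M.eRk (L i) ≤ (v.get i : ℕ∞) + 1) ∧ (⋃ i, L i) = M.E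

/-- `M` is covered by the set `V` of dimension vectors. -/
def CoveredBy {α : Type} (M : Matroid α) (V : Set (List ℕ)) : Prop :=
  ∃ v ∈ V, CoveredByVector M v

/-- A matroid is simple: it has no loops and no circuits with two elements. -/
def IsSimple {α : Type} (M : Matroid α) : Prop :=
  (∀ e, ¬ M.IsLoop e) ∧ ∀ C, M.IsCircuit C → C.ncard ≠ 2

/-- The defining property of the covering threshold: a finite simple matroid all of whose
restrictions to at most `N` elements are covered by `V` is itself covered by `V`. -/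
def HasThreshold (V : Set (List ℕ)) (N : ℕ) : Prop :=
  ∀ (α : Type) (M : Matroid α), M.E.Finite → IsSimple M →
    (∀ X ⊆ M.E, X.ncard ≤ N → CoveredBy (M ↾ X) V) → CoveredBy M V

/-- The covering threshold `C(V)` over all finite matroids: the least `N` with the above property
(and `⊤` should there be no such `N`). -/
noncomputable def threshold (V : Set (List ℕ)) : ℕ∞ :=
  sInf ((fun n : ℕ => (n : ℕ∞)) '' {n | HasThreshold V n})

section lin

variable {α : Type} (S : Set (Set α))

/-- independent sets of the rank-three matroid with long lines in `S` -/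
def Ind (I : Set α) : Prop := I.ncard ≤ 3 ∧ (I.ncard = 3 → ∀ B ∈ S, ¬ I ⊆ B)

/-- the rank-three matroid whose lines with at least three points are in `S` -/
def lin [Finite α] (hS : ∀ A ∈ S, ∀ B ∈ S, ∀ x y, x ≠ y → x ∈ A → y ∈ A → x ∈ B → y ∈ B → A = B) :
    Matroid α :=
  (IndepMatroid.ofFinite (E := Set.univ) (Set.toFinite _) (Ind S)
    ⟨by simp, by simp⟩
    (fun I J hJ hIJ => by
      have h1 : I.ncard ≤ J.ncard := Set.ncard_le_ncard hIJ (Set.toFinite _)
      refine ⟨h1.trans hJ.1, fun h B hB hIB => ?_⟩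
      have h2 : I = J := Set.eq_of_subset_of_ncard_le hIJ (by have := hJ.1; omega) (Set.toFinite _)
      exact hJ.2 (h2 ▸ h) B hB (h2 ▸ hIB))
    (fun I J hI hJ hIJ => by
      by_contra hcon
      push Not at hcon
      obtain ⟨e, he, heI⟩ := Set.exists_mem_notMem_of_ncard_lt_ncard hIJ (Set.toFinite _)
      have h3 := hJ.1
      have h1 : ∀ e ∈ J, e ∉ I → I.ncard = 2 ∧ ∃ B ∈ S, insert e I ⊆ B := by
        intro e he heI
        have h2 := hcon e he heI
        have h4 := Set.ncard_insert_of_notMem heI (Set.toFinite _)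
        unfold Ind at h2
        rw [h4] at h2
        push Not at h2
        obtain ⟨h5, B, hB, h6⟩ := h2 (by omega)
        exact ⟨by omega, B, hB, h6⟩
      obtain ⟨h4, B, hB, h5⟩ := h1 e he heI
      obtain ⟨x, y, hxy, rfl⟩ := Set.ncard_eq_two.1 h4
      refine hJ.2 (by omega) B hB fun z hz => ?_
      by_cases hzI : z ∈ ({x, y} : Set α)
      · exact h5 (Set.mem_insert_of_mem _ hzI)
      · obtain ⟨-, B', hB', h6⟩ := h1 z hz hzI
        have h7 : B = B' := hS B hB B' hB' x y hxy (h5 (by simp)) (h5 (by simp)) (h6 (by simp))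
          (h6 (by simp))
        rw [h7]
        exact h6 (Set.mem_insert _ _))
    (fun _ _ => Set.subset_univ _)).matroid

variable [Finite α]
  (hS : ∀ A ∈ S, ∀ B ∈ S, ∀ x y, x ≠ y → x ∈ A → y ∈ A → x ∈ B → y ∈ B → A = B)

theorem lin_ground : (lin S hS).E = Set.univ := rfl

theorem lin_indep (I : Set α) :
    (lin S hS).Indep I ↔ I.ncard ≤ 3 ∧ (I.ncard = 3 → ∀ B ∈ S, ¬ I ⊆ B) := by
  unfold lin
  rw [IndepMatroid.matroid_indep_iff]
  rfl

theorem lin_indep_two {I : Set α} (h : I.ncard ≤ 2) : (lin S hS).Indep I := by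
  rw [lin_indep]
  exact ⟨by omega, fun h => by omega⟩

theorem lin_simple : IsSimple (lin S hS) := by
  constructor
  · intro e he
    have h1 := he.dep
    exact h1.1 (lin_indep_two S hS (by rw [Set.ncard_singleton]; omega))
  · intro C hC h
    exact hC.dep.1 (lin_indep_two S hS (by omega))

/-- a set contained in a line has rank at most two -/
theorem rk_le_of_subset {A B : Set α} (hB : B ∈ S) (hA : A ⊆ B) : (lin S hS).eRk A ≤ 2 := by
  rw [Matroid.eRk_le_iff]
  intro I hI hI2
  rw [lin_indep] at hI2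
  have h1 : I.ncard ≤ 2 := by
    by_contra h
    exact hI2.2 (by omega) B hB (hI.trans hA)
  rw [← (Set.toFinite I).cast_ncard_eq]
  exact_mod_cast h1

theorem rk_le_of_ncard {A : Set α} (hA : A.ncard ≤ 2) : (lin S hS).eRk A ≤ 2 := by
  refine (Matroid.eRk_le_encard _ _).trans ?_
  rw [← (Set.toFinite A).cast_ncard_eq]
  exact_mod_cast hA

/-- a set of rank at most two has at most two elements or is contained in a line -/
theorem of_rk_le {A : Set α} (hA : (lin S hS).eRk A ≤ 2) : A.ncard ≤ 2 ∨ ∃ B ∈ S, A ⊆ B := by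
  rw [Matroid.eRk_le_iff] at hA
  have key : ∀ x y z, x ∈ A → y ∈ A → z ∈ A → x ≠ y → x ≠ z → y ≠ z →
      ∃ B ∈ S, x ∈ B ∧ y ∈ B ∧ z ∈ B := by
    intro x y z hx hy hz hxy hxz hyz
    by_contra hcon
    push Not at hcon
    have h3 : ({x, y, z} : Set α).ncard = 3 := Set.ncard_eq_three.2 ⟨x, y, z, hxy, hxz, hyz, rfl⟩
    have h1 : (lin S hS).Indep {x, y, z} := by
      rw [lin_indep]
      refine ⟨h3.le, fun _ B hB hsub => hcon B hB (hsub (by simp)) (hsub (by simp))
        (hsub (by simp))⟩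
    have h2 := hA (I := {x, y, z}) (by rintro _ (rfl | rfl | rfl) <;> assumption) h1
    rw [← (Set.toFinite ({x, y, z} : Set α)).cast_ncard_eq, h3] at h2
    exact absurd h2 (by decide)
  by_cases h : A.ncard ≤ 2
  · exact Or.inl h
  · right
    obtain ⟨x, y, z, hx, hy, hz, hxy, hxz, hyz⟩ :=
      (Set.two_lt_ncard_iff (Set.toFinite A)).1 (by omega)
    obtain ⟨B, hB, hxB, hyB, -⟩ := key x y z hx hy hz hxy hxz hyz
    refine ⟨B, hB, fun u hu => ?_⟩
    by_cases hux : u = x
    · rw [hux]; exact hxB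
    by_cases huy : u = y
    · rw [huy]; exact hyB
    obtain ⟨B', hB', h1, h2, h3⟩ := key x y u hx hy hu hxy (Ne.symm hux) (Ne.symm huy)
    rw [hS B hB B' hB' x y hxy hxB hyB h1 h2]
    exact h3

/-- covering a restriction by sets of rank at most two -/
theorem covered_of_sets {X : Set α} (n : ℕ) (F : Fin n → Set α)
    (hF : ∀ i, (lin S hS).eRk (F i) ≤ 2) (hX : X ⊆ ⋃ i, F i) :
    CoveredByVector ((lin S hS) ↾ X) (List.replicate n 1) := by
  have hlen : (List.replicate n 1).length = n := List.length_replicate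
  refine ⟨fun i => ((lin S hS) ↾ X).closure (F (Fin.cast hlen i) ∩ X), fun i => ⟨?_, ?_⟩, ?_⟩
  · exact Matroid.isFlat_closure _
  · rw [Matroid.eRk_closure_eq, Matroid.restrict_eRk_eq _ Set.inter_subset_right]
    refine (Matroid.eRk_mono _ Set.inter_subset_left).trans ((hF _).trans ?_)
    simp only [List.get_eq_getElem, List.getElem_replicate]
    norm_num
  · apply subset_antisymm
    · exact Set.iUnion_subset fun i => Matroid.closure_subset_ground _ _
    · intro x hx
      have hx' : x ∈ X := hx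
      obtain ⟨i, hi⟩ := Set.mem_iUnion.1 (hX hx')
      refine Set.mem_iUnion.2 ⟨Fin.cast hlen.symm i, ?_⟩
      exact Matroid.mem_closure_of_mem _ ⟨hi, hx'⟩ (by
        rw [Matroid.restrict_ground_eq]
        exact Set.inter_subset_right)

end lin

section plane

/-- vectors of the plane over the field with seven elements -/
abbrev V2 := Fin 2 → ZMod 7

/-- the `48` points -/
abbrev P := {v : V2 // v ≠ 0}

instance : Fact (Nat.Prime 7) := ⟨by norm_num⟩

/-- the value of the functional `l` at `v` -/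
def dot (l v : V2) : ZMod 7 := l 0 * v 0 + l 1 * v 1

/-- the affine line `l = 1`, which misses the origin -/
def big (l : V2) : Set P := {v | dot l v.1 = 1}

/-- `v` and `w` are proportional -/
def prp (v w : V2) : Prop := v 0 * w 1 = v 1 * w 0

/-- the label of a nonzero vector: its first nonzero coordinate -/
def lab (v : V2) : ZMod 7 := if v 0 = 0 then v 1 else v 0

/-- the three long lines of the six-point structure on the labels `1, ..., 6` -/
def T : Fin 3 → Finset (ZMod 7) := ![{1, 2, 3}, {3, 4, 5}, {5, 6, 1}]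

/-- the vectors proportional to `w` with label in `U` -/
def sm (w : P) (U : Finset (ZMod 7)) : Set P := {v | prp v.1 w.1 ∧ lab v.1 ∈ U}

/-- the long lines of the matroid -/
def Lns : Set (Set P) := {B | (∃ l, B = big l) ∨ ∃ w i, B = sm w (T i)}

theorem ne_zero_cases (v : P) : v.1 0 ≠ 0 ∨ v.1 1 ≠ 0 := by
  by_contra h
  push Not at h
  apply v.2
  funext i
  fin_cases i
  · exact h.1
  · exact h.2

theorem prp_refl (v : V2) : prp v v := mul_comm _ _

theorem prp_symm {v w : V2} (h : prp v w) : prp w v := by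
  unfold prp at *
  linear_combination -h

theorem prp_trans {u w : V2} (v : P) (h1 : prp u v.1) (h2 : prp v.1 w) : prp u w := by
  unfold prp at *
  rcases ne_zero_cases v with h | h
  · apply mul_left_cancel₀ h
    linear_combination (w 0) * h1 + (u 0) * h2
  · apply mul_left_cancel₀ h
    linear_combination (w 1) * h1 + (u 1) * h2

theorem ext2 {v w : P} (h0 : v.1 0 = w.1 0) (h1 : v.1 1 = w.1 1) : v = w := by
  apply Subtype.ext
  funext i
  fin_cases i
  · exact h0
  · exact h1

theorem lab_ne_zero (v : P) : lab v.1 ≠ 0 := by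
  unfold lab
  split_ifs with h
  · rcases ne_zero_cases v with h1 | h1
    · exact absurd h h1
    · exact h1
  · exact h

theorem lab_inj {v w : P} (h : prp v.1 w.1) (hl : lab v.1 = lab w.1) : v = w := by
  unfold prp at h
  by_cases hv : v.1 0 = 0
  · have hv1 : v.1 1 ≠ 0 := by
      rcases ne_zero_cases v with h1 | h1
      · exact absurd hv h1
      · exact h1
    have hw : w.1 0 = 0 := by
      rw [hv, zero_mul] at h
      rcases mul_eq_zero.1 h.symm with h1 | h1
      · exact absurd h1 hv1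
      · exact h1
    unfold lab at hl
    rw [if_pos hv, if_pos hw] at hl
    exact ext2 (hv.trans hw.symm) hl
  · have hw : w.1 0 ≠ 0 := by
      intro hw
      rw [hw, mul_zero] at h
      rcases mul_eq_zero.1 h with h1 | h1
      · exact hv h1
      · rcases ne_zero_cases w with h2 | h2
        · exact h2 hw
        · exact h2 h1
    unfold lab at hl
    rw [if_neg hv, if_neg hw] at hl
    refine ext2 hl ?_
    rw [hl] at h
    apply mul_left_cancel₀ hw
    linear_combination -h

theorem big_prp {l : V2} {v w : P} (hv : v ∈ big l) (hw : w ∈ big l) (h : prp v.1 w.1) :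
    v = w := by
  have h1 : l 0 * v.1 0 + l 1 * v.1 1 = 1 := hv
  have h2 : l 0 * w.1 0 + l 1 * w.1 1 = 1 := hw
  unfold prp at h
  apply ext2
  · linear_combination -(v.1 0) * h2 + (w.1 0) * h1 + (l 1) * h
  · linear_combination -(v.1 1) * h2 + (w.1 1) * h1 - (l 0) * h

theorem exists_big {v w : P} (h : ¬ prp v.1 w.1) : ∃ l, v ∈ big l ∧ w ∈ big l := by
  have hD : v.1 0 * w.1 1 - v.1 1 * w.1 0 ≠ 0 := sub_ne_zero.2 h
  refine ⟨![(w.1 1 - v.1 1) / (v.1 0 * w.1 1 - v.1 1 * w.1 0),
    (v.1 0 - w.1 0) / (v.1 0 * w.1 1 - v.1 1 * w.1 0)], ?_, ?_⟩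
  · show _ / _ * v.1 0 + _ / _ * v.1 1 = (1 : ZMod 7)
    rw [div_mul_eq_mul_div, div_mul_eq_mul_div, ← add_div, div_eq_one_iff_eq hD]
    ring
  · show _ / _ * w.1 0 + _ / _ * w.1 1 = (1 : ZMod 7)
    rw [div_mul_eq_mul_div, div_mul_eq_mul_div, ← add_div, div_eq_one_iff_eq hD]
    ring

theorem exists_hit (v : P) : ∃ l, v ∈ big l := by
  rcases ne_zero_cases v with h | h
  · refine ⟨![(v.1 0)⁻¹, 0], ?_⟩
    show (v.1 0)⁻¹ * v.1 0 + 0 * v.1 1 = 1
    field_simp
    ring
  · refine ⟨![0, (v.1 1)⁻¹], ?_⟩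
    show 0 * v.1 0 + (v.1 1)⁻¹ * v.1 1 = 1
    field_simp
    ring

theorem big_unique {l m : V2} {v w : P} (hvw : v ≠ w) (h1 : v ∈ big l) (h2 : w ∈ big l)
    (h3 : v ∈ big m) (h4 : w ∈ big m) : l = m := by
  have h : ¬ prp v.1 w.1 := fun h => hvw (big_prp h1 h2 h)
  have hD : v.1 0 * w.1 1 - v.1 1 * w.1 0 ≠ 0 := sub_ne_zero.2 h
  have e1 : l 0 * v.1 0 + l 1 * v.1 1 = 1 := h1
  have e2 : l 0 * w.1 0 + l 1 * w.1 1 = 1 := h2
  have e3 : m 0 * v.1 0 + m 1 * v.1 1 = 1 := h3
  have e4 : m 0 * w.1 0 + m 1 * w.1 1 = 1 := h4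
  funext i
  fin_cases i
  · apply mul_right_cancel₀ hD
    show l 0 * _ = m 0 * _
    linear_combination (w.1 1) * e1 - (v.1 1) * e2 - (w.1 1) * e3 + (v.1 1) * e4
  · apply mul_right_cancel₀ hD
    show l 1 * _ = m 1 * _
    linear_combination -(w.1 0) * e1 + (v.1 0) * e2 + (w.1 0) * e3 - (v.1 0) * e4

theorem T_inter : ∀ i j : Fin 3, ∀ a b : ZMod 7, a ≠ b → a ∈ T i → b ∈ T i → a ∈ T j → b ∈ T j →
    i = j := by decide

theorem hLns : ∀ A ∈ Lns, ∀ B ∈ Lns, ∀ x y, x ≠ y → x ∈ A → y ∈ A → x ∈ B → y ∈ B → A = B := by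
  rintro A (⟨l, rfl⟩ | ⟨w, i, rfl⟩) B (⟨m, rfl⟩ | ⟨w', j, rfl⟩) x y hxy hxA hyA hxB hyB
  · rw [big_unique hxy hxA hyA hxB hyB]
  · exact absurd (big_prp hxA hyA (prp_trans w' hxB.1 (prp_symm hyB.1))) hxy
  · exact absurd (big_prp hxB hyB (prp_trans w hxA.1 (prp_symm hyA.1))) hxy
  · have hl : lab x.1 ≠ lab y.1 := fun h =>
      hxy (lab_inj (prp_trans w hxA.1 (prp_symm hyA.1)) h)
    have hij := T_inter i j _ _ hl hxA.2 hyA.2 hxB.2 hyB.2
    subst hij
    have hww : prp w.1 w'.1 := prp_trans x (prp_symm hxA.1) hxB.1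
    ext v
    constructor
    · rintro ⟨h1, h2⟩
      exact ⟨prp_trans w h1 hww, h2⟩
    · rintro ⟨h1, h2⟩
      exact ⟨prp_trans w' h1 (prp_symm hww), h2⟩

/-- the matroid -/
def M : Matroid P := lin Lns hLns

theorem card_P : (Set.univ : Set P).ncard = 48 := by
  rw [Set.ncard_univ, Nat.card_eq_fintype_card]
  rw [Fintype.card_subtype_compl]
  simp [ZMod.card]

/-- Few functionals cannot hit all nonzero vectors (Jamison, Brouwer and Schrijver). -/
theorem key (W : Finset V2) (hW : W.card ≤ 11) : ∃ x : P, ∀ l ∈ W, x ∉ big l := by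
  classical
  by_contra hcon
  push Not at hcon
  let q : V2 → MvPolynomial (Fin 2) (ZMod 7) := fun l =>
    1 - (MvPolynomial.C (l 0) * MvPolynomial.X 0 + MvPolynomial.C (l 1) * MvPolynomial.X 1)
  have hq : ∀ l, (q l).totalDegree ≤ 1 := by
    intro l
    refine (MvPolynomial.totalDegree_sub _ _).trans (max_le (by simp) ?_)
    refine (MvPolynomial.totalDegree_add _ _).trans (max_le ?_ ?_)
    · exact (MvPolynomial.totalDegree_mul _ _).trans (by simp)
    · exact (MvPolynomial.totalDegree_mul _ _).trans (by simp)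
  let f : MvPolynomial (Fin 2) (ZMod 7) := ∏ l ∈ W, q l
  have hf : f.totalDegree ≤ 11 := by
    refine (MvPolynomial.totalDegree_finsetProd _ _).trans ?_
    refine (Finset.sum_le_card_nsmul W _ 1 fun l _ => hq l).trans ?_
    simpa using hW
  have hsum := MvPolynomial.sum_eval_eq_zero f (by
    rw [ZMod.card, Fintype.card_fin]
    omega)
  have hval : ∀ x : V2, MvPolynomial.eval x f = ∏ l ∈ W, (1 - dot l x) := by
    intro x
    simp [f, q, dot]
  rw [Finset.sum_eq_single 0] at hsum
  · rw [hval] at hsum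
    simp [dot] at hsum
  · intro x _ hx
    rw [hval]
    obtain ⟨l, hl, hlx⟩ := hcon ⟨x, hx⟩
    refine Finset.prod_eq_zero hl ?_
    have h1 : dot l x = 1 := hlx
    rw [h1, sub_self]
  · intro h
    exact absurd (Finset.mem_univ _) h

/-- a set of points can be hit by at most as many functionals -/
theorem hit_card (X : Set P) (n : ℕ) (hn : X.ncard ≤ n) :
    ∃ W : Finset V2, W.card ≤ n ∧ ∀ x ∈ X, ∃ l ∈ W, x ∈ big l := by
  classical
  choose f hf using exists_hit
  refine ⟨((Set.toFinite X).toFinset).image f, ?_, ?_⟩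
  · refine Finset.card_image_le.trans ?_
    rw [← Set.ncard_eq_toFinset_card]
    exact hn
  · intro x hx
    exact ⟨f x, Finset.mem_image_of_mem _ ((Set.toFinite X).mem_toFinset.2 hx), hf x⟩

/-- lines of the six-point structure -/
def SL (U : Finset (ZMod 7)) : Prop := U.card ≤ 2 ∨ ∃ i, U = T i

theorem SL_card {U : Finset (ZMod 7)} (h : SL U) : U.card ≤ 3 := by
  rcases h with h | ⟨i, rfl⟩
  · omega
  · fin_cases i <;> decide

theorem T_union : ∀ i j : Fin 3, (T i ∪ T j).card ≤ 5 := by decide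

theorem SL_union {U U' : Finset (ZMod 7)} (h : SL U) (h' : SL U') : (U ∪ U').card ≤ 5 := by
  rcases h with h | ⟨i, rfl⟩
  · have h1 := SL_card h'
    have h2 := Finset.card_union_le U U'
    omega
  · rcases h' with h' | ⟨j, rfl⟩
    · have h1 : (T i).card ≤ 3 := SL_card (Or.inr ⟨i, rfl⟩)
      have h2 := Finset.card_union_le (T i) U'
      omega
    · exact T_union i j

theorem sm_ncard (w : P) (U : Finset (ZMod 7)) (A : Set P) (hA : A ⊆ sm w U) :
    A.ncard ≤ U.card := by
  rw [← Set.ncard_coe_finset U]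
  refine Set.ncard_le_ncard_of_injOn (fun v : P => lab v.1) (fun v hv => (hA hv).2) ?_
    (Set.toFinite _)
  intro v hv v' hv' h
  exact lab_inj (prp_trans w (hA hv).1 (prp_symm (hA hv').1)) h

theorem big_ncard (l : V2) (A : Set P) (hA : A ⊆ big l) : A.ncard ≤ 7 := by
  have h7 : (Set.univ : Set (ZMod 7)).ncard = 7 := by
    rw [Set.ncard_univ, Nat.card_eq_fintype_card, ZMod.card]
  rw [← h7]
  by_cases h : l 1 = 0
  · refine Set.ncard_le_ncard_of_injOn (fun v : P => v.1 1) (fun v _ => Set.mem_univ _) ?_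
      (Set.toFinite _)
    intro v hv v' hv' hvv
    have e1 : l 0 * v.1 0 + l 1 * v.1 1 = 1 := hA hv
    have e2 : l 0 * v'.1 0 + l 1 * v'.1 1 = 1 := hA hv'
    have hvv' : v.1 1 = v'.1 1 := hvv
    rw [h, zero_mul, add_zero] at e1 e2
    have h0 : l 0 ≠ 0 := by
      rintro h0
      rw [h0, zero_mul] at e1
      exact zero_ne_one e1
    exact ext2 (mul_left_cancel₀ h0 (e1.trans e2.symm)) hvv'
  · refine Set.ncard_le_ncard_of_injOn (fun v : P => v.1 0) (fun v _ => Set.mem_univ _) ?_
      (Set.toFinite _)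
    intro v hv v' hv' hvv
    have e1 : l 0 * v.1 0 + l 1 * v.1 1 = 1 := hA hv
    have e2 : l 0 * v'.1 0 + l 1 * v'.1 1 = 1 := hA hv'
    have hvv' : v.1 0 = v'.1 0 := hvv
    refine ext2 hvv' (mul_left_cancel₀ h ?_)
    rw [hvv'] at e1
    linear_combination e1 - e2

/-- two small sets can be hit by five functionals -/
theorem hit_two {A B : Set P} {w w' : P} {U U' : Finset (ZMod 7)} (hU : SL U) (hU' : SL U')
    (hA : A ⊆ sm w U) (hB : B ⊆ sm w' U') :
    ∃ W : Finset V2, W.card ≤ 5 ∧ ∀ x ∈ A ∪ B, ∃ l ∈ W, x ∈ big l := by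
  classical
  by_cases h : ∃ x ∈ A, ∃ y ∈ B, ¬ prp x.1 y.1
  · obtain ⟨x, hx, y, hy, hxy⟩ := h
    obtain ⟨l, hl1, hl2⟩ := exists_big hxy
    have h1 := sm_ncard w U A hA
    have h2 := sm_ncard w' U' B hB
    have h3 := SL_card hU
    have h4 := SL_card hU'
    have h5 : (A \ {x}).ncard = A.ncard - 1 := Set.ncard_sdiff_singleton_of_mem hx
    have h6 : (B \ {y}).ncard = B.ncard - 1 := Set.ncard_sdiff_singleton_of_mem hy
    have h7 := Set.ncard_union_le (A \ {x}) (B \ {y})
    obtain ⟨W, hW, hW2⟩ := hit_card ((A \ {x}) ∪ (B \ {y})) 4 (by omega)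
    refine ⟨insert l W, (Finset.card_insert_le _ _).trans (by omega), ?_⟩
    intro z hz
    by_cases hzx : z = x
    · exact ⟨l, Finset.mem_insert_self _ _, by rw [hzx]; exact hl1⟩
    by_cases hzy : z = y
    · exact ⟨l, Finset.mem_insert_self _ _, by rw [hzy]; exact hl2⟩
    obtain ⟨m, hm, hm2⟩ := hW2 z (by
      rcases hz with hz | hz
      · exact Or.inl ⟨hz, hzx⟩
      · exact Or.inr ⟨hz, hzy⟩)
    exact ⟨m, Finset.mem_insert_of_mem hm, hm2⟩
  · push Not at h
    have h5 : (A ∪ B).ncard ≤ 5 := by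
      by_cases hAe : A.Nonempty
      · by_cases hBe : B.Nonempty
        · obtain ⟨a, ha⟩ := hAe
          obtain ⟨b, hb⟩ := hBe
          have hww : prp w'.1 w.1 := prp_trans b (prp_symm (hB hb).1)
            (prp_trans a (prp_symm (h a ha b hb)) (hA ha).1)
          refine (sm_ncard w (U ∪ U') (A ∪ B) ?_).trans (SL_union hU hU')
          rintro z (hz | hz)
          · exact ⟨(hA hz).1, Finset.mem_union_left _ (hA hz).2⟩
          · exact ⟨prp_trans w' (hB hz).1 hww, Finset.mem_union_right _ (hB hz).2⟩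
        · rw [Set.not_nonempty_iff_eq_empty] at hBe
          rw [hBe, Set.union_empty]
          exact (sm_ncard w U A hA).trans ((SL_card hU).trans (by norm_num))
      · rw [Set.not_nonempty_iff_eq_empty] at hAe
        rw [hAe, Set.empty_union]
        exact (sm_ncard w' U' B hB).trans ((SL_card hU').trans (by norm_num))
    exact hit_card _ 5 h5

/-- the sets of rank at most two -/
theorem good_of_rk {A : Set P} (hA : M.eRk A ≤ 2) :
    (∃ l, A ⊆ big l) ∨ ∃ w U, SL U ∧ A ⊆ sm w U := by
  classical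
  rcases of_rk_le Lns hLns hA with h | ⟨B, ⟨l, rfl⟩ | ⟨w, i, rfl⟩, hAB⟩
  · rcases A.eq_empty_or_nonempty with rfl | ⟨x, hx⟩
    · exact Or.inl ⟨0, Set.empty_subset _⟩
    by_cases hall : ∀ y ∈ A, prp y.1 x.1
    · right
      refine ⟨x, ((Set.toFinite A).toFinset).image (fun v : P => lab v.1), Or.inl ?_, ?_⟩
      · refine Finset.card_image_le.trans ?_
        rw [← Set.ncard_eq_toFinset_card]
        exact h
      · intro v hv
        exact ⟨hall v hv, Finset.mem_image_of_mem (fun v : P => lab v.1)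
          ((Set.toFinite A).mem_toFinset.2 hv)⟩
    · push Not at hall
      obtain ⟨y, hy, hyx⟩ := hall
      left
      obtain ⟨l, h1, h2⟩ := exists_big hyx
      refine ⟨l, fun z hz => ?_⟩
      have hxy : y ≠ x := by
        rintro rfl
        exact hyx (prp_refl _)
      by_contra hzl
      have h3 : z ≠ y := fun e => hzl (e ▸ h1)
      have h4 : z ≠ x := fun e => hzl (e ▸ h2)
      have h5 : ({z, y, x} : Set P) ⊆ A := by
        rintro _ (rfl | rfl | rfl) <;> assumption
      have h6 : ({z, y, x} : Set P).ncard = 3 :=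
        Set.ncard_eq_three.2 ⟨z, y, x, h3, h4, hxy, rfl⟩
      have h7 := Set.ncard_le_ncard h5 (Set.toFinite _)
      omega
  · exact Or.inl ⟨l, hAB⟩
  · exact Or.inr ⟨w, T i, Or.inr ⟨i, rfl⟩, hAB⟩

/-- the ground set is not the union of eight sets of rank at most two -/
theorem no_cover (F : Fin 8 → Set P) (hF : ∀ i, M.eRk (F i) ≤ 2) (hc : ⋃ i, F i = Set.univ) :
    False := by
  classical
  set Bg : Finset (Fin 8) := Finset.univ.filter (fun i => ∃ l, F i ⊆ big l) with hBg
  set Sm : Finset (Fin 8) := Finset.univ.filter (fun i => ¬ ∃ l, F i ⊆ big l) with hSm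
  have hcard : Bg.card + Sm.card = 8 := by
    rw [hBg, hSm, Finset.card_filter_add_card_filter_not]
    simp
  have hBgl : ∀ i ∈ Bg, ∃ l, F i ⊆ big l := fun i hi => (Finset.mem_filter.1 hi).2
  have hSml : ∀ i ∈ Sm, ∃ w U, SL U ∧ F i ⊆ sm w U := by
    intro i hi
    rcases good_of_rk (hF i) with h | h
    · exact absurd h (Finset.mem_filter.1 hi).2
    · exact h
  have hmem : ∀ i, i ∈ Bg ∨ i ∈ Sm := by
    intro i
    by_cases h : ∃ l, F i ⊆ big l
    · exact Or.inl (Finset.mem_filter.2 ⟨Finset.mem_univ _, h⟩)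
    · exact Or.inr (Finset.mem_filter.2 ⟨Finset.mem_univ _, h⟩)
  -- functionals hitting the big sets
  obtain ⟨Wb, hWb, hWb2⟩ : ∃ W : Finset V2, W.card ≤ Bg.card ∧
      ∀ i ∈ Bg, ∀ x ∈ F i, ∃ l ∈ W, x ∈ big l := by
    choose! f hf using hBgl
    refine ⟨Bg.image f, Finset.card_image_le, fun i hi x hx => ?_⟩
    exact ⟨f i, Finset.mem_image_of_mem _ hi, hf i hi hx⟩
  -- conclusion from few functionals hitting the small sets
  have fin : ∀ W : Finset V2, W.card ≤ Sm.card + 3 →
      (∀ i ∈ Sm, ∀ x ∈ F i, ∃ l ∈ W, x ∈ big l) → False := by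
    intro W hW hW2
    obtain ⟨x, hx⟩ := key (Wb ∪ W) ((Finset.card_union_le _ _).trans (by omega))
    have hx1 : x ∈ ⋃ i, F i := by rw [hc]; exact Set.mem_univ _
    obtain ⟨i, hi⟩ := Set.mem_iUnion.1 hx1
    rcases hmem i with h | h
    · obtain ⟨l, hl, hlx⟩ := hWb2 i h x hi
      exact hx l (Finset.mem_union_left _ hl) hlx
    · obtain ⟨l, hl, hlx⟩ := hW2 i h x hi
      exact hx l (Finset.mem_union_right _ hl) hlx
  by_cases h3 : 3 ≤ Sm.card
  · -- counting
    have h1 : (Set.univ : Set P).ncard ≤ ∑ i, (F i).ncard := by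
      have h2 : (Set.univ : Set P) ⊆ ((Finset.univ : Finset (Fin 8)).biUnion
          fun i => (Set.toFinite (F i)).toFinset : Finset P) := by
        intro x _
        have hx1 : x ∈ ⋃ i, F i := by rw [hc]; exact Set.mem_univ _
        obtain ⟨i, hi⟩ := Set.mem_iUnion.1 hx1
        simp only [Finset.coe_biUnion, Finset.coe_univ, Set.mem_univ, Set.iUnion_true,
          Set.Finite.coe_toFinset]
        exact hx1
      refine (Set.ncard_le_ncard h2 (Set.toFinite _)).trans ?_
      rw [Set.ncard_coe_finset]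
      refine Finset.card_biUnion_le.trans (Finset.sum_le_sum fun i _ => ?_)
      rw [← Set.ncard_eq_toFinset_card]
    rw [card_P] at h1
    have h2 : ∑ i, (F i).ncard ≤ 7 * Bg.card + 3 * Sm.card := by
      rw [← Finset.sum_filter_add_sum_filter_not Finset.univ (fun i => ∃ l, F i ⊆ big l)]
      refine add_le_add ?_ ?_
      · refine (Finset.sum_le_card_nsmul _ _ 7 fun i hi => ?_).trans (by
          rw [smul_eq_mul, mul_comm])
        obtain ⟨l, hl⟩ := hBgl i hi
        exact big_ncard l _ hl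
      · refine (Finset.sum_le_card_nsmul _ _ 3 fun i hi => ?_).trans (by
          rw [smul_eq_mul, mul_comm])
        obtain ⟨w, U, hU, hl⟩ := hSml i hi
        exact (sm_ncard w U _ hl).trans (SL_card hU)
    omega
  · have h4 : Sm.card = 0 ∨ Sm.card = 1 ∨ Sm.card = 2 := by omega
    rcases h4 with h4 | h4 | h4
    · refine fin ∅ (by simp) ?_
      intro i hi
      rw [Finset.card_eq_zero] at h4
      rw [h4] at hi
      exact absurd hi (Finset.notMem_empty _)
    · obtain ⟨i, hi⟩ := Finset.card_eq_one.1 h4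
      obtain ⟨w, U, hU, hl⟩ := hSml i (by rw [hi]; exact Finset.mem_singleton_self _)
      obtain ⟨W, hW, hW2⟩ := hit_card (F i) 4
        ((sm_ncard w U _ hl).trans ((SL_card hU).trans (by norm_num)))
      refine fin W (by omega) ?_
      intro j hj x hx
      rw [hi, Finset.mem_singleton] at hj
      subst hj
      exact hW2 x hx
    · obtain ⟨i, j, -, hij⟩ := Finset.card_eq_two.1 h4
      obtain ⟨w, U, hU, hl⟩ := hSml i (by rw [hij]; simp)
      obtain ⟨w', U', hU', hl'⟩ := hSml j (by rw [hij]; simp)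
      obtain ⟨W, hW, hW2⟩ := hit_two hU hU' hl hl'
      refine fin W (by omega) ?_
      intro m hm x hx
      rw [hij, Finset.mem_insert, Finset.mem_singleton] at hm
      rcases hm with rfl | rfl
      · exact hW2 x (Or.inl hx)
      · exact hW2 x (Or.inr hx)

theorem not_covered : ¬ CoveredBy M {List.replicate 8 1} := by
  rintro ⟨v, hv, L, hL, hU⟩
  rw [Set.mem_singleton_iff] at hv
  subst hv
  refine no_cover (fun i => L (Fin.cast (by simp) i)) (fun i => ?_) ?_
  · refine (hL _).2.trans ?_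
    simp only [List.get_eq_getElem, List.getElem_replicate]
    norm_num
  · rw [show (Set.univ : Set P) = M.E from rfl, ← hU]
    ext x
    simp only [Set.mem_iUnion]
    constructor
    · rintro ⟨i, hi⟩
      exact ⟨_, hi⟩
    · rintro ⟨i, hi⟩
      exact ⟨Fin.cast (by simp) i, hi⟩

/-- For every label `a` there are two lines of the six-point structure covering the other labels. -/
theorem labels : ∀ a : ZMod 7, a ≠ 0 → ∃ i : Fin 3, ∃ b c : ZMod 7, ∃ j : Fin 3, ∃ e : Bool,
    ∀ x : ZMod 7, x ≠ 0 → x ≠ a → x ∈ T i ∨ (e = true ∧ x ∈ T j) ∨ (e = false ∧ (x = b ∨ x = c)) := by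
  decide

/-- the complement of a point is the union of eight sets of rank at most two -/
theorem cover_compl (p : P) : ∃ F : Fin 8 → Set P, (∀ i, M.eRk (F i) ≤ 2) ∧
    ∀ x, x ≠ p → x ∈ ⋃ i, F i := by
  classical
  obtain ⟨i, b, c, j, e, hlab⟩ := labels (lab p.1) (lab_ne_zero p)
  -- the functional vanishing at `p`
  let l : V2 := ![-(p.1 1), p.1 0]
  have hl : ∀ v : P, dot l v.1 = 0 ↔ prp v.1 p.1 := by
    intro v
    show -(p.1 1) * v.1 0 + p.1 0 * v.1 1 = 0 ↔ v.1 0 * p.1 1 = v.1 1 * p.1 0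
    constructor
    · intro h
      linear_combination -h
    · intro h
      linear_combination -h
  let G : Fin 8 → Set P := fun m =>
    if m.val < 6 then big (fun i => ((m.val : ZMod 7) + 1)⁻¹ * l i)
    else if m.val = 6 then sm p (T i)
    else if e = true then sm p (T j) else sm p {b, c}
  refine ⟨G, ?_, ?_⟩
  · intro m
    simp only [G]
    split_ifs with h1 h2 h3
    · exact rk_le_of_subset Lns hLns (Or.inl ⟨_, rfl⟩) le_rfl
    · exact rk_le_of_subset Lns hLns (Or.inr ⟨_, _, rfl⟩) le_rfl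
    · exact rk_le_of_subset Lns hLns (Or.inr ⟨_, _, rfl⟩) le_rfl
    · exact rk_le_of_ncard Lns hLns ((sm_ncard p {b, c} _ le_rfl).trans Finset.card_le_two)
  · intro x hx
    rw [Set.mem_iUnion]
    by_cases hp : prp x.1 p.1
    · have hne : lab x.1 ≠ lab p.1 := fun h => hx (lab_inj hp h)
      rcases hlab (lab x.1) (lab_ne_zero x) hne with h | ⟨he, h⟩ | ⟨he, h⟩
      · refine ⟨6, ?_⟩
        simp only [G]
        exact ⟨hp, h⟩
      · refine ⟨7, ?_⟩
        simp only [G, he]
        exact ⟨hp, h⟩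
      · refine ⟨7, ?_⟩
        simp only [G, he]
        refine ⟨hp, ?_⟩
        simp only [Finset.mem_insert, Finset.mem_singleton]
        exact h
    · have h0 : dot l x.1 ≠ 0 := fun h => hp ((hl x).1 h)
      have h1 : ∀ a : ZMod 7, a ≠ 0 → ∃ m : Fin 8, m.val < 6 ∧ (m.val : ZMod 7) + 1 = a := by
        decide
      obtain ⟨m, hm, hma⟩ := h1 _ h0
      refine ⟨m, ?_⟩
      simp only [G]
      rw [if_pos hm]
      show (((m.val : ZMod 7) + 1)⁻¹ * l 0) * x.1 0 + (((m.val : ZMod 7) + 1)⁻¹ * l 1) * x.1 1 = 1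
      have h2 : (((m.val : ZMod 7) + 1)⁻¹ * l 0) * x.1 0 +
          (((m.val : ZMod 7) + 1)⁻¹ * l 1) * x.1 1 = (((m.val : ZMod 7) + 1)⁻¹) * dot l x.1 := by
        unfold dot
        ring
      rw [h2, hma]
      exact inv_mul_cancel₀ h0

theorem covered_small (X : Set P) (hX : X.ncard ≤ 47) :
    CoveredBy (M ↾ X) {List.replicate 8 1} := by
  have hne : X ≠ Set.univ := by
    intro h
    rw [h, card_P] at hX
    omega
  obtain ⟨p, hp⟩ := (Set.ne_univ_iff_exists_notMem X).1 hne
  obtain ⟨F, hF, hF2⟩ := cover_compl p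
  refine ⟨_, rfl, covered_of_sets Lns hLns 8 F hF fun x hx => hF2 x ?_⟩
  rintro rfl
  exact hp hx

theorem threshold_ge : (48 : ℕ∞) ≤ threshold {List.replicate 8 1} := by
  refine le_sInf ?_
  rintro _ ⟨n, hn, rfl⟩
  by_contra hcon
  have h48 : n ≤ 47 := by
    by_contra h
    apply hcon
    have h1 : 48 ≤ n := by omega
    show (48 : ℕ∞) ≤ (n : ℕ∞)
    exact_mod_cast h1
  exact not_covered (hn P M (Set.toFinite _) (lin_simple Lns hLns)
    fun X _ hX => covered_small X (hX.trans h48))

end plane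

/-- For the single dimension vector `(1,1,1,1,1,1,1,1)`, where `t = 8`, `k = 1`, the covering
threshold over all matroids is at least `48 > 45 = binom 10 2`; in particular the conjectured upper
bound `binom (t + k + 1) (k + 1)` fails. -/
theorem result :
    (48 : ℕ∞) ≤ threshold {List.replicate 8 1} ∧
    ¬ ∀ (t k : ℕ) (V : Set (List ℕ)), 1 ≤ t →
      (∀ v ∈ V, IsDimVector v ∧ v.length ≤ t) →
      IsGreatest {n | ∃ v ∈ V, n ∈ v} k →
      threshold V ≤ ((t + k + 1).choose (k + 1) : ℕ) := by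
  refine ⟨threshold_ge, fun h => ?_⟩
  have h1 := h 8 1 {List.replicate 8 1} (by norm_num) (by
    rintro v hv
    rw [Set.mem_singleton_iff] at hv
    subst hv
    exact ⟨by unfold IsDimVector; decide, by simp⟩) (by
    constructor
    · exact ⟨_, rfl, by simp⟩
    · rintro n ⟨v, hv, hn⟩
      rw [Set.mem_singleton_iff] at hv
      subst hv
      rw [List.mem_replicate] at hn
      exact hn.2.le)
  have h2 := threshold_ge.trans h1
  have h3 : (8 + 1 + 1).choose (1 + 1) = 45 := by decide
  rw [h3] at h2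
  exact absurd h2 (by decide)

end Pool.Agent.Results.MP_6a60a4_co.CoveringThreshold
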